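import Mathlib

/-!
The arithmetic at the end of the proof of the linear range (MP_008206), helper52's text, step (7).
-/

set_option autoImplicit false

namespace SIFU

theorem ar52 (w d ka h f io D k L : ℤ) (hw : 0 ≤ w) (hd : 0 ≤ d) (hka : 0 ≤ ka) (hh : 0 ≤ h)
    (hf : 0 ≤ f) (hio : 0 ≤ io) (hk : 1 ≤ k) (hkd : ka + d ≤ w) (hD1 : 3 * w + 1 ≤ D)
    (hD2 : w + 2 * k - 3 ≤ D) (hfD : f ≤ D - 1) (hd0 : d = 0 → f = 0)
    (ha : io * h + f - ka ≤ L) (hb : (D - 1 - ka) * h - d * f ≤ L)
    (hc : (w + 1 - d) * f - (k - 1) * (ka + io) ≤ L) :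
    0 ≤ (w - ka) + w * d - w * h + L := by
  by_contra hneg
  have hT : (w - ka) + w * d - w * h + L < 0 := not_le.mp hneg
  rcases eq_or_lt_of_le hd with h0 | hd1
  · have hf0 := hd0 h0.symm
    subst hf0
    rw [← h0] at hb hT hkd
    have h1 : 0 ≤ (D - 1 - ka - w) * h := mul_nonneg (by linarith) hh
    nlinarith [h1]
  -- `d ≥ 1`
  have hkap : ka ≤ w - d := by linarith
  -- (b)
  have hB : (D - 1 - 2 * w + d) * h + (w + 1) * d < d * f := by
    have h1 : (D - 1 - 2 * w + d) * h ≤ (D - 1 - ka - w) * h :=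
      mul_le_mul_of_nonneg_right (by linarith) hh
    nlinarith [h1]
  -- (a)
  have hA : f < w * (h - d) - io * h + w - 2 * d := by
    nlinarith
  have hg : 0 ≤ D - 1 - 2 * w := by linarith
  -- `h > d`
  have hhd : d < h := by
    by_contra hle
    have hle' : h ≤ d := not_lt.mp hle
    have h1 : 0 ≤ (D - 1 - 2 * w + d) * h := mul_nonneg (by linarith) hh
    have h2 : (w + 1) * d < d * f := by linarith
    have h3 : w + 1 < f := by
      by_contra h4
      have : f * d ≤ (w + 1) * d := mul_le_mul_of_nonneg_right (not_lt.mp h4) hd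
      linarith [mul_comm f d]
    have h5 : w * (h - d) ≤ 0 := mul_nonpos_of_nonneg_of_nonpos hw (by linarith)
    have h6 : 0 ≤ io * h := mul_nonneg hio hh
    linarith
  -- `(g + d) (h - d) < d (w - 1 - d)`
  have h7 : (D - 1 - 2 * w + d) * (h - d) < d * (w - 1 - d) := by
    have h8 : d * f ≤ d * (D - 1) := mul_le_mul_of_nonneg_left hfD hd
    nlinarith [h8]
  have h9 : w * (h - d) ≤ (D - 1 - 2 * w + d) * (h - d) :=
    mul_le_mul_of_nonneg_right (by linarith) (by linarith)
  have h10 : w * (h - d) < d * (w - 1 - d) := lt_of_le_of_lt h9 h7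
  have h11 : 0 ≤ w * (h - d) := mul_nonneg hw (by linarith)
  have h12 : 0 < w - 1 - d := by
    by_contra h13
    have : d * (w - 1 - d) ≤ 0 := mul_nonpos_of_nonneg_of_nonpos hd (not_lt.mp h13)
    linarith
  -- lower bound of `f`
  have h14 : D - w + h < f := by
    by_contra h15
    have h16 : d * f ≤ d * (D - w + h) := mul_le_mul_of_nonneg_left (not_lt.mp h15) hd
    have h17 : 0 ≤ (D - 1 - 2 * w) * (h - d) := mul_nonneg hg (by linarith)
    nlinarith [h16, h17]
  -- `io < w - 1 - d`
  have h18 : io < w - 1 - d := by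
    have h19 : io * h < w * (h - d) := by linarith
    have h20 : io * h < h * (w - 1 - d) := by
      have h21 : d * (w - 1 - d) ≤ h * (w - 1 - d) := mul_le_mul_of_nonneg_right hhd.le h12.le
      linarith
    by_contra h22
    have h23 : h * (w - 1 - d) ≤ h * io := mul_le_mul_of_nonneg_left (not_lt.mp h22) hh
    linarith [mul_comm io h]
  -- (c)
  have h24 : (w + 1 - d) * f < (w - 1 - d) * (2 * k - 2 + d) := by
    have h25 : (k - 1) * (ka + io) ≤ (k - 1) * (w - d + (w - d - 2)) :=
      mul_le_mul_of_nonneg_left (by linarith [Int.lt_iff_add_one_le.mp h18]) (by linarith)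
    nlinarith [h25]
  have h26 : (w - 1 - d) * f ≤ (w + 1 - d) * f := mul_le_mul_of_nonneg_right (by linarith) hf
  have h27 : f < 2 * k - 2 + d := by
    by_contra h28
    have h29 : (w - 1 - d) * (2 * k - 2 + d) ≤ (w - 1 - d) * f :=
      mul_le_mul_of_nonneg_left (not_lt.mp h28) h12.le
    linarith
  linarith [Int.lt_iff_add_one_le.mp h14, Int.lt_iff_add_one_le.mp hhd]

end SIFU
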