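import Pool.Agent.H99.SIF.UnG

/-!
Proposition A (helper52) for MP_008206, unordered: if all lines have at most `D = x + 1 - w` ones, some row
has `D` ones and `(k - 2) (k - 1 + w) ≤ (w + 1) D`, then the bound holds.
-/

set_option autoImplicit false

namespace SIFU
open Finset

variable {P Q : Type} [Fintype P] [Fintype Q] [DecidableEq P] [DecidableEq Q]

theorem propA_arith (k x D w SE SA SM SI : ℤ) (hk : 2 ≤ k) (hw : 0 ≤ w)
    (hD : D + w = x + 1) (hcond : (k - 2) * (k - 1 + w) ≤ (w + 1) * D)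
    (h1 : SE + SA + (w + 1) * SI ≤ (k + x - 1) * (D + w + 1))
    (h2 : SE + SA + SM ≤ (k + x - 1) * (D + w + 1) + (k - 2) * SI)
    (h3 : D * (k - 1) ≤ SA) (h4 : D * (k - 1) + D * w ≤ SA + SM) :
    SE + D ≤ (x + 1) ^ 2 + (k + x - 1) := by
  have hx : x = D + w - 1 := by linarith
  subst hx
  have e1 := mul_le_mul_of_nonneg_left h1 (by linarith : (0 : ℤ) ≤ k - 2)
  have e2 := mul_le_mul_of_nonneg_left h2 (by linarith : (0 : ℤ) ≤ w + 1)
  have e3 := mul_le_mul_of_nonneg_left h3 (by linarith : (0 : ℤ) ≤ k - 2)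
  have e4 := mul_le_mul_of_nonneg_left h4 (by linarith : (0 : ℤ) ≤ w + 1)
  have e5 := mul_le_mul_of_nonneg_left hcond hw
  have hS : 0 < k - 1 + w := by linarith
  have key : (k - 1 + w) * (SE + D) ≤
      (k - 1 + w) * ((D + w - 1 + 1) ^ 2 + (k + (D + w - 1) - 1)) := by
    nlinarith [e1, e2, e3, e4, e5]
  exact le_of_mul_le_mul_left key hS

theorem propA_row {A : P → Q → Bool} {k x D w : ℕ} (cP : Fintype.card P = k + x)
    (cQ : Fintype.card Q = k + x) (hU : U A k) (hR : ∀ r, (Nr A r).card ≤ D)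
    (hC : ∀ c, (Nc A c).card ≤ D) (hD : D + w = x + 1) (hk : 2 ≤ k)
    (hcond : (k - 2) * (k - 1 + w) ≤ (w + 1) * D) (p : P) (hp : (Nr A p).card = D) :
    (E A).card ≤ (x + 1) ^ 2 + (k + x - 1) := by
  classical
  obtain ⟨R, C, h⟩ := Ctx_exists cP cQ hU p
  set sa : P → ℕ := fun r => if (G A p R r).Nonempty then
    (G A p R r).card + (Hs A p R r).card else 0 with hsa
  set sm : P → ℕ := fun r => if (G A p R r).Nonempty then 0 else
    (G A p R r).card + (Hs A p R r).card with hsm
  set si : P → ℕ := fun r => if (G A p R r).Nonempty then 0 else 1 with hsi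
  -- the ones outside `N(p)`
  have hlive : ∀ r, r ≠ p → (G A p R r).Nonempty → (Nr A r \ Nr A p).card ≤ w + 1 := by
    intro r hrp hne
    obtain ⟨c, hc⟩ := hne
    simp only [G, mem_filter] at hc
    have h2 := h.outcard hc.1 hc.2 hrp
    have h3 := h.skipcard hc.1
    have h4 : (Nr A r ∩ (univ \ (Nr A p ∪ C c))).card ≤ (univ \ (Nr A p ∪ C c)).card :=
      card_le_card inter_subset_right
    omega
  have hall : ∀ r, (Nr A r \ Nr A p).card + D ≤ k + x := by
    intro r
    have h1 : (Nr A r \ Nr A p).card ≤ (univ \ Nr A p).card :=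
      card_le_card (sdiff_subset_sdiff (subset_univ _) (Subset.refl _))
    have h2 := card_sdiff_of_subset (subset_univ (Nr A p))
    have h3 := card_le_card (subset_univ (Nr A p))
    rw [card_univ, cQ] at h2 h3
    omega
  have i1 : ∀ r ∈ univ.erase p, (Nr A r).card + sa r + (w + 1) * si r ≤ D + w + 1 := by
    intro r hr
    have hrp : r ≠ p := ne_of_mem_erase hr
    have h1 := h.part hrp
    have h2 := Ctx.degsplit A p r
    have h3 := hR r
    by_cases hg : (G A p R r).Nonempty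
    · have h4 := hlive r hrp hg
      simp only [hsa, hsi, if_pos hg]
      omega
    · simp only [hsa, hsi, if_neg hg]
      omega
  have i2 : ∀ r ∈ univ.erase p, (Nr A r).card + sa r + sm r ≤ D + w + 1 + (k - 2) * si r := by
    intro r hr
    have hrp : r ≠ p := ne_of_mem_erase hr
    have h1 := h.part hrp
    have h2 := Ctx.degsplit A p r
    have h5 := hall r
    by_cases hg : (G A p R r).Nonempty
    · have h4 := hlive r hrp hg
      simp only [hsa, hsm, hsi, if_pos hg]
      omega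
    · simp only [hsa, hsm, hsi, if_neg hg]
      omega
  have i3 : ∀ r ∈ univ.erase p, (G A p R r).card ≤ sa r := by
    intro r _
    by_cases hg : (G A p R r).Nonempty
    · simp only [hsa, if_pos hg]
      omega
    · rw [not_nonempty_iff_eq_empty.mp hg, card_empty]
      exact Nat.zero_le _
  have i4 : ∀ r ∈ univ.erase p, (G A p R r).card + (Hs A p R r).card ≤ sa r + sm r := by
    intro r _
    by_cases hg : (G A p R r).Nonempty
    · simp only [hsa, hsm, if_pos hg]
      omega
    · simp only [hsa, hsm, if_neg hg]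
      omega
  have s1 := sum_le_sum i1
  have s2 := sum_le_sum i2
  have s3 := sum_le_sum i3
  have s4 := sum_le_sum i4
  rw [sum_add_distrib, sum_add_distrib, ← mul_sum, sum_const, smul_eq_mul,
    card_erase_of_mem (mem_univ p), card_univ, cP] at s1
  rw [sum_add_distrib, sum_add_distrib, sum_add_distrib, ← mul_sum, sum_const, smul_eq_mul,
    card_erase_of_mem (mem_univ p), card_univ, cP] at s2
  rw [sum_add_distrib, sum_add_distrib] at s4
  have t3 := h.sumG
  have t4 := add_sum_erase univ (fun r => (G A p R r).card) (mem_univ p)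
  have t5 := add_sum_erase univ (fun r => (Nr A r).card) (mem_univ p)
  have t6 := add_sum_erase univ (fun r => (Hs A p R r).card) (mem_univ p)
  rw [← card_E_rows] at t5
  beta_reduce at t4 t5 t6
  rw [h.Gp, t3, hp] at t4
  rw [hp] at t5
  rw [Ctx.Hp, card_empty, zero_add] at t6
  have t7 := h.sumH
  rw [hp] at t7
  have t8 : ∑ c ∈ Nr A p, (Nc A c).card ≤ D * D := by
    have := sum_le_sum (fun c (_ : c ∈ Nr A p) => hC c)
    rwa [sum_const, smul_eq_mul, hp] at this
  have hkx : 1 ≤ k + x := by omega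
  obtain ⟨n1, hn1⟩ : ∃ n1, k + x = n1 + 1 := ⟨k + x - 1, by omega⟩
  obtain ⟨k2, rfl⟩ : ∃ k2, k = k2 + 2 := ⟨k - 2, by omega⟩
  have hk1 : k2 + 2 - 1 = k2 + 1 := by omega
  have hk0 : k2 + 2 - 2 = k2 := by omega
  rw [hk1, hk0] at hcond
  rw [hk0] at s2
  rw [hn1, Nat.add_sub_cancel] at s1 s2 ⊢
  generalize (∑ r ∈ univ.erase p, (Nr A r).card) = SE at *
  generalize (∑ r ∈ univ.erase p, sa r) = SA at *
  generalize (∑ r ∈ univ.erase p, sm r) = SM at *
  generalize (∑ r ∈ univ.erase p, si r) = SI at *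
  generalize (∑ r ∈ univ.erase p, (G A p R r).card) = SG at *
  generalize (∑ r ∈ univ.erase p, (Hs A p R r).card) = SH at *
  rw [← t6] at t7
  generalize (∑ c ∈ Nr A p, (Nc A c).card) = SC at *
  rw [← t5]
  have hn1' : (n1 : ℤ) = (k2 : ℤ) + 2 + x - 1 := by
    have : ((k2 + 2 + x : ℕ) : ℤ) = ((n1 + 1 : ℕ) : ℤ) := by rw [hn1]
    push_cast at this
    linarith
  have hSG : (SG : ℤ) = D * ((k2 : ℤ) + 1) := by
    have : ((D + SG : ℕ) : ℤ) = ((D * (k2 + 2) : ℕ) : ℤ) := by rw [t4]
    push_cast at this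
    linarith
  have hDz : (D : ℤ) + w = x + 1 := by exact_mod_cast hD
  have hSH : (D : ℤ) * w ≤ SH := by
    have a1 : ((SC + D * (k2 + 2) + SH : ℕ) : ℤ) = ((D * (k2 + 2 + x + 1) : ℕ) : ℤ) := by rw [t7]
    have a2 : (SC : ℤ) ≤ D * D := by exact_mod_cast t8
    push_cast at a1
    have a3 : (D : ℤ) * (D + w) = D * (x + 1) := by rw [hDz]
    nlinarith [a1, a2, a3]
  have s1' : (SE : ℤ) + SA + (w + 1) * SI ≤ n1 * (D + w + 1) := by exact_mod_cast s1
  have s2' : (SE : ℤ) + SA + SM ≤ n1 * (D + w + 1) + k2 * SI := by exact_mod_cast s2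
  have s3' : (SG : ℤ) ≤ SA := by exact_mod_cast s3
  have s4' : (SG : ℤ) + SH ≤ SA + SM := by exact_mod_cast s4
  have c' : (k2 : ℤ) * (k2 + 1 + w) ≤ (w + 1) * D := by exact_mod_cast hcond
  have main := propA_arith ((k2 : ℤ) + 2) x D w SE SA SM SI (by linarith [Int.natCast_nonneg k2]) (by positivity) hDz
    (by ring_nf at c' ⊢; linarith) (by rw [← hn1']; exact s1')
    (by rw [← hn1']; ring_nf at s2' ⊢; linarith) (by nlinarith) (by nlinarith)
  have goal' : ((D + SE : ℕ) : ℤ) ≤ (((x + 1) ^ 2 + n1 : ℕ) : ℤ) := by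
    push_cast
    linarith
  exact_mod_cast goal'

end SIFU
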