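import Pool.Agent.H33.SIF.PropA

/-!
The final reduction for MP_008206: helper52's theorem (as a hypothesis, `LinRow`) and Proposition A give the
bound for all `k ≥ 3`, `17 k ≤ 4 n + 32`.
-/

set_option autoImplicit false

namespace SIFU
open Finset

/-- helper52's theorem for a fullest row -/
def LinRow : Prop :=
  ∀ (n k x D w : ℕ) (A : Fin n → Fin n → Bool), n = k + x → U A k →
    (∀ r, (Nr A r).card ≤ D) → (∀ c, (Nc A c).card ≤ D) → D + w = x + 1 → 2 ≤ k →
    3 * w + 1 ≤ D → w + 2 * k ≤ D + 3 → ∀ p, (Nr A p).card = D →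
    (E A).card ≤ (x + 1) ^ 2 + (k + x - 1)

theorem red_golden (k x w : ℤ) (_hk : 3 ≤ k) (hw0 : 0 ≤ w) (hw : w ≤ k - 3)
    (hx : 13 * k - 32 ≤ 4 * x) :
    (3 * w + 1 ≤ x + 1 - w ∧ w + 2 * k - 3 ≤ x + 1 - w) ∨
      (k - 2) * (k - 1 + w) ≤ (w + 1) * (x + 1 - w) := by
  rcases le_or_gt (2 * w + 2 * k - 4) x with h | h
  · left
    constructor
    · rcases le_or_gt x (4 * k - 8) with h1 | h1
      · linarith
      · linarith
    · linarith
  · right
    -- `s = x + 8 - 3 k`, `v = k - 3 - w`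
    obtain ⟨s, hs⟩ : ∃ s, s = x + 8 - 3 * k := ⟨_, rfl⟩
    obtain ⟨v, hv⟩ : ∃ v, v = k - 3 - w := ⟨_, rfl⟩
    have hxs : x = s + 3 * k - 8 := by linarith
    have hws : w = k - 3 - v := by linarith
    subst hxs hws
    have hs4 : k ≤ 4 * s := by linarith
    have hv0 : 0 ≤ v := by linarith
    have hv2 : 2 * v ≤ k - 3 - s := by linarith [Int.add_one_le_iff.mpr h]
    have hk4 : (9 * k - 16) * (9 * k - 16) ≤ (4 * s + 8 * k - 16) * (4 * s + 8 * k - 16) :=
      mul_self_le_mul_self (by linarith) (by linarith)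
    have h5 : (2 * v) * (2 * v + 2 * s) ≤ (k - 3 - s) * (k - 3 + s) :=
      mul_le_mul hv2 (by linarith) (by linarith) (by linarith)
    nlinarith [hk4, h5]

theorem nD_bound (k x D w : ℤ) (hk : 2 ≤ k) (hx : 0 ≤ x) (hD : D + w = x + 1) (hw : k - 2 ≤ w) :
    (k + x) * D ≤ (x + 1) ^ 2 + (k + x - 1) := by
  have h1 : D ≤ x + 3 - k := by linarith
  have h2 : (k + x) * D ≤ (k + x) * (x + 3 - k) := mul_le_mul_of_nonneg_left h1 (by linarith)
  nlinarith [h2, mul_nonneg (by linarith : (0 : ℤ) ≤ k - 2) (by linarith : (0 : ℤ) ≤ k)]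

/-- the bound if a row is a fullest line -/
theorem range_row (hL : LinRow) {n k x D : ℕ} (A : Fin n → Fin n → Bool) (hn : n = k + x)
    (hk : 3 ≤ k) (hr : 17 * k ≤ 4 * n + 32) (hU : U A k) (hR : ∀ r, (Nr A r).card ≤ D)
    (hC : ∀ c, (Nc A c).card ≤ D) (p : Fin n) (hp : (Nr A p).card = D) :
    (E A).card ≤ (x + 1) ^ 2 + (k + x - 1) := by
  have cP : Fintype.card (Fin n) = k + x := by rw [Fintype.card_fin, hn]
  have hDx : D ≤ x + 1 := by
    rw [← hp]
    exact deg_le cP hU p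
  obtain ⟨w, hw⟩ : ∃ w, D + w = x + 1 := ⟨x + 1 - D, by omega⟩
  have hDz : (D : ℤ) + w = x + 1 := by exact_mod_cast hw
  rcases le_or_gt (k - 2) w with h1 | h1
  · -- `|E| ≤ n D`
    have h2 : (E A).card ≤ (k + x) * D := by
      rw [card_E_rows]
      have := sum_le_sum (fun r (_ : r ∈ (univ : Finset (Fin n))) => hR r)
      rw [sum_const, smul_eq_mul, card_univ, cP] at this
      exact this
    have h3 := nD_bound k x D w (by exact_mod_cast (by omega : 2 ≤ k)) (by positivity) hDz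
      (by
        have : ((k : ℤ) - 2) ≤ w := by omega
        exact this)
    have h4 : (((k + x) * D : ℕ) : ℤ) ≤ (((x + 1) ^ 2 + (k + x - 1) : ℕ) : ℤ) := by
      have h5 : ((k + x - 1 : ℕ) : ℤ) = (k : ℤ) + x - 1 := by omega
      push_cast [h5]
      linarith
    exact h2.trans (by exact_mod_cast h4)
  · have h2 := red_golden k x w (by exact_mod_cast hk) (by positivity) (by omega) (by omega)
    rcases h2 with ⟨h3, h4⟩ | h3
    · exact hL n k x D w A hn hU hR hC hw (by omega) (by omega) (by omega) p hp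
    · refine propA_row cP cP hU hR hC hw (by omega) ?_ p hp
      obtain ⟨k2, rfl⟩ : ∃ k2, k = k2 + 2 := ⟨k - 2, by omega⟩
      have e1 : k2 + 2 - 2 = k2 := by omega
      have e2 : k2 + 2 - 1 = k2 + 1 := by omega
      rw [e1, e2]
      have h5 : (x : ℤ) + 1 - w = D := by linarith
      rw [h5] at h3
      have h6 : (k2 : ℤ) * (k2 + 1 + w) ≤ (w + 1) * D := by
        push_cast at h3
        have e3 : (k2 : ℤ) + 2 - 2 = k2 := by ring
        have e4 : (k2 : ℤ) + 2 - 1 + w = k2 + 1 + w := by ring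
        rw [e3, e4] at h3
        exact h3
      exact_mod_cast h6

theorem card_E_swap {n : ℕ} (A : Fin n → Fin n → Bool) :
    (E (fun c r => A r c)).card = (E A).card := by
  rw [card_E_rows (fun c r => A r c), card_E_cols A]
  rfl

/-- the bound for all `n` with `17 k ≤ 4 n + 32` -/
theorem range_bound (hL : LinRow) {n k : ℕ} (A : Fin n → Fin n → Bool) (hk : 3 ≤ k) (hkn : k ≤ n)
    (hr : 17 * k ≤ 4 * n + 32) (hU : U A k) : (E A).card ≤ (n - k + 1) ^ 2 + (n - 1) := by
  obtain ⟨x, rfl⟩ : ∃ x, n = k + x := ⟨n - k, by omega⟩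
  rw [Nat.add_sub_cancel_left]
  have hne : (univ : Finset (Fin (k + x))).Nonempty := ⟨⟨0, by omega⟩, mem_univ _⟩
  obtain ⟨p, _, hp⟩ := exists_max_image univ (fun r => (Nr A r).card) hne
  obtain ⟨q, _, hq⟩ := exists_max_image univ (fun c => (Nc A c).card) hne
  rcases le_total (Nc A q).card (Nr A p).card with h | h
  · exact range_row hL A rfl hk hr hU (fun r => hp r (mem_univ _))
      (fun c => (hq c (mem_univ _)).trans h) p rfl
  · rw [← card_E_swap]
    exact range_row hL (fun c r => A r c) rfl hk hr (U_swap hU) (fun r => hq r (mem_univ _))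
      (fun c => (hp c (mem_univ _)).trans h) q rfl

end SIFU
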